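import Pool.Agent.Helper30.AC.Stmts

/-! # AC: the row FUN -/

set_option autoImplicit false

universe u

namespace Pool.Agent.Helper39.AC

open Filter Topology Pool.Agent.Helper30.AC

theorem LL_apply {E : Type*} [NormedAddCommGroup E] [NormedSpace ℝ E] (y : ℕ → E →L[ℝ] ℝ)
    (T : ℕ → E) {n i : ℕ} (h : i ≤ n) : LL y T n i = y i (T n) := by
  unfold LL rho
  rw [if_pos h]

theorem tend_y {E : Type*} [NormedAddCommGroup E] [NormedSpace ℝ E] (y : ℕ → E →L[ℝ] ℝ)
    {T : ℕ → E} {l : E} (h : Tendsto T atTop (𝓝 l)) (i : ℕ) :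
    Tendsto (fun n => LL y T n i) atTop (𝓝 (y i l)) := by
  have h1 : Tendsto (fun n => y i (T n)) atTop (𝓝 (y i l)) :=
    ((y i).continuous.tendsto l).comp h
  refine h1.congr' ?_
  filter_upwards [eventually_ge_atTop i] with n hn
  exact (LL_apply y T hn).symm

theorem st_FUN (h1 : ST_LIM.{u}) (h2 : ST_LAM.{u}) : ST_FUN.{u} := by
  intro E _ _ _ K y hK hS
  have hq : ∀ x : XX K y, ∃ (q : (ℕ → ℝ) × (ℕ → E)) (l : E), q ∈ CC K ∧ x.1 = LL y q.2 ∧
      (∀ n, q.2 n ∈ K) ∧ l ∈ K ∧ Tendsto q.2 atTop (𝓝 l) := by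
    intro x
    obtain ⟨q, hq, hx⟩ := x.2
    obtain ⟨a, l, hl, ht⟩ := h1 E K hK q hq
    exact ⟨q, l, hq, hx, a, hl, ht⟩
  choose q f hqC hqx hqK hfK hft using hq
  have hy : ∀ (x : XX K y) (i : ℕ), Tendsto (fun n => x.1 n i) atTop (𝓝 (y i (f x))) := by
    intro x i
    have := tend_y y (hft x) i
    rwa [← hqx x] at this
  refine ⟨f, ?_, ?_, ?_⟩
  · intro x x' z t ht0 ht1 hz
    refine hS _ (hfK z) _ (hK.2.1 (hfK x) (hfK x') ht0 (by linarith) (by ring)) fun i => ?_
    refine tendsto_nhds_unique (hy z i) ?_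
    have e1 : (fun n => z.1 n i) = fun n => t * x.1 n i + (1 - t) * x'.1 n i := by
      funext n
      have := congrFun (congrFun hz n) i
      simpa using this
    rw [e1, map_add, map_smul, map_smul, smul_eq_mul, smul_eq_mul]
    exact ((hy x i).const_mul t).add ((hy x' i).const_mul (1 - t))
  · have hL : ∀ k : ℕ, ∃ n, k ≤ n ∧ ∃ lam : (ℕ → ℝ) → E, ContinuousOn lam (rho y n '' K) ∧
        ∀ v ∈ K, ‖lam (rho y n v) - v‖ ≤ 1 / ((k : ℝ) + 1) :=
      fun k => h2 E K y hK hS (1 / ((k : ℝ) + 1)) (by positivity) k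
    choose n hn lam hlc hlb using hL
    have hmem : ∀ (k : ℕ) (x : XX K y), x.1 (n k) = rho y (n k) ((q x).2 (n k)) := by
      intro k x
      exact congrFun (hqx x) (n k)
    refine ⟨fun k x => lam k (x.1 (n k)), ?_, ?_⟩
    · intro k
      refine (hlc k).comp_continuous ((continuous_apply (n k)).comp continuous_subtype_val) ?_
      intro x
      exact ⟨_, hqK x (n k), (hmem k x).symm⟩
    · intro x
      have hnt : Tendsto n atTop atTop := tendsto_atTop_mono hn tendsto_id
      have h3 : Tendsto (fun k => ‖(q x).2 (n k) - f x‖) atTop (𝓝 0) := by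
        have := ((hft x).comp hnt).sub_const (f x)
        rw [sub_self] at this
        have h4 := this.norm
        rw [norm_zero] at h4
        exact h4
      have h5 : Tendsto (fun k : ℕ => 1 / ((k : ℝ) + 1) + ‖(q x).2 (n k) - f x‖) atTop (𝓝 0) := by
        have := tendsto_one_div_add_atTop_nhds_zero_nat (𝕜 := ℝ).add h3
        rwa [add_zero] at this
      rw [tendsto_iff_norm_sub_tendsto_zero]
      refine squeeze_zero (fun _ => norm_nonneg _) (fun k => ?_) h5
      have h6 := hlb k _ (hqK x (n k))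
      show ‖lam k (x.1 (n k)) - f x‖ ≤ 1 / ((k : ℝ) + 1) + ‖(q x).2 (n k) - f x‖
      rw [hmem k x]
      calc ‖lam k (rho y (n k) ((q x).2 (n k))) - f x‖ =
            ‖(lam k (rho y (n k) ((q x).2 (n k))) - (q x).2 (n k)) +
              ((q x).2 (n k) - f x)‖ := by congr 1; abel
        _ ≤ _ := (norm_add_le _ _).trans (by linarith)
  · intro v hv x hx
    refine hS _ (hfK x) _ hv fun i => ?_
    refine tendsto_nhds_unique (hy x i) ?_
    rw [hx]
    exact tend_y y (T := fun _ => v) tendsto_const_nhds i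

end Pool.Agent.Helper39.AC
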